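import Mathlib

set_option autoImplicit false

namespace Pool.Agent.H.MP_10444e_gt

open Set Filter Topology

/-- Scheepers property Ufin(O, Omega) of a subset, written as in the frozen statement -/
def Scheepers {α : Type} [TopologicalSpace α] (X : Set α) : Prop :=
  ∀ U : ℕ → Set (Set α), (∀ n, ∀ u ∈ U n, IsOpen u) → (∀ n, X ⊆ ⋃₀ U n) →
    ∃ F : ℕ → Finset (Set α), (∀ n, (↑(F n) : Set (Set α)) ⊆ U n) ∧
      ∀ A : Finset α, (↑A : Set α) ⊆ X → ∃ n, (↑A : Set α) ⊆ ⋃₀ (↑(F n) : Set (Set α))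

/-- Menger property Sfin(O, O) of a subset -/
def Menger {α : Type} [TopologicalSpace α] (X : Set α) : Prop :=
  ∀ U : ℕ → Set (Set α), (∀ n, ∀ u ∈ U n, IsOpen u) → (∀ n, X ⊆ ⋃₀ U n) →
    ∃ F : ℕ → Finset (Set α), (∀ n, (↑(F n) : Set (Set α)) ⊆ U n) ∧
      X ⊆ ⋃ n, ⋃₀ (↑(F n) : Set (Set α))

/-- functions eventually dominated by the maximum of finitely many members of Y -/
def G (Y : Set (ℕ → ℕ)) : Set (ℕ → ℕ) :=
  {g | ∃ F : Finset (ℕ → ℕ), F.Nonempty ∧ (↑F : Set (ℕ → ℕ)) ⊆ Y ∧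
    ∀ᶠ m in atTop, g m ≤ F.sup (fun h => h m)}

/-- the power X^(k+1) -/
def Pow {α : Type} (X : Set α) (k : ℕ) : Set (Fin (k + 1) → α) := Set.pi univ (fun _ => X)

variable {α β : Type} [TopologicalSpace α] [TopologicalSpace β]

def Usc (Z : Set α) (Φ : α → Set β) : Prop :=
  (∀ z ∈ Z, IsCompact (Φ z)) ∧ ∀ z ∈ Z, ∀ O, IsOpen O → Φ z ⊆ O →
    ∃ V, IsOpen V ∧ z ∈ V ∧ ∀ z' ∈ Z, z' ∈ V → Φ z' ⊆ O

theorem usc {Z : Set α} {Φ : α → Set β} (h : Usc Z Φ) {U : Set (Set β)} (hU : ∀ u ∈ U, IsOpen u)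
    (hc : ∀ z ∈ Z, Φ z ⊆ ⋃₀ U) : ∃ V : Set (Set α), (∀ v ∈ V, IsOpen v) ∧ Z ⊆ ⋃₀ V ∧
      ∀ F : Finset (Set α), (↑F : Set (Set α)) ⊆ V → ∃ F' : Finset (Set β),
        (↑F' : Set (Set β)) ⊆ U ∧ ∀ z ∈ Z, z ∈ ⋃₀ (↑F : Set (Set α)) →
          Φ z ⊆ ⋃₀ (↑F' : Set (Set β)) := by
  classical
  refine ⟨{v | IsOpen v ∧ ∃ F' : Finset (Set β), (↑F' : Set (Set β)) ⊆ U ∧
    ∀ z ∈ Z, z ∈ v → Φ z ⊆ ⋃₀ (↑F' : Set (Set β))}, fun v hv => hv.1, fun z hz => ?_,
    fun F hF => ?_⟩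
  · obtain ⟨T, hT, hT', hT2⟩ := (h.1 z hz).elim_finite_subcover_image (b := U) (c := id) hU
      (by simpa only [id, ← sUnion_eq_biUnion] using hc z hz)
    obtain ⟨V, h1, h2, h3⟩ := h.2 z hz (⋃₀ T) (isOpen_sUnion fun u hu => hU u (hT hu))
      (by rw [sUnion_eq_biUnion]; exact hT2)
    exact ⟨V, ⟨h1, hT'.toFinset, by simpa using hT, by simpa using h3⟩, h2⟩
  · have : ∀ v : F, ∃ F' : Finset (Set β), (↑F' : Set (Set β)) ⊆ U ∧
      ∀ z ∈ Z, z ∈ v.1 → Φ z ⊆ ⋃₀ (↑F' : Set (Set β)) := fun v => (hF v.2).2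
    choose F' h1 h2 using this
    refine ⟨Finset.univ.biUnion F', fun u hu => ?_, fun z hz ⟨v, hv, hzv⟩ => ?_⟩
    · obtain ⟨v, -, hv⟩ := Finset.mem_biUnion.1 hu
      exact h1 v hv
    · refine (h2 ⟨v, hv⟩ z hz hzv).trans (sUnion_subset_sUnion fun u hu => ?_)
      exact Finset.mem_biUnion.2 ⟨⟨v, hv⟩, Finset.mem_univ _, hu⟩

theorem Menger.usc {Z : Set α} {Φ : α → Set β} {W : Set β} (hZ : Menger Z) (h : Usc Z Φ)
    (h1 : ∀ z ∈ Z, Φ z ⊆ W) (h2 : ∀ w ∈ W, ∃ z ∈ Z, w ∈ Φ z) : Menger W := by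
  intro U hU hc
  choose V v1 v2 v3 using fun n => MP_10444e_gt.usc h (hU n) (fun z hz => (h1 z hz).trans (hc n))
  obtain ⟨F, f1, f2⟩ := hZ V v1 v2
  choose F' g1 g2 using fun n => v3 n (F n) (f1 n)
  refine ⟨F', g1, fun w hw => ?_⟩
  obtain ⟨z, hz, hwz⟩ := h2 w hw
  obtain ⟨n, hn⟩ := mem_iUnion.1 (f2 hz)
  exact mem_iUnion.2 ⟨n, g2 n z hz hn hwz⟩

theorem Scheepers.usc {Z : Set α} {Φ : α → Set β} {W : Set β} (hZ : Scheepers Z) (h : Usc Z Φ)
    (h1 : ∀ z ∈ Z, Φ z ⊆ W) (h2 : ∀ w ∈ W, ∃ z ∈ Z, w ∈ Φ z) : Scheepers W := by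
  classical
  intro U hU hc
  choose V v1 v2 v3 using fun n => MP_10444e_gt.usc h (hU n) (fun z hz => (h1 z hz).trans (hc n))
  obtain ⟨F, f1, f2⟩ := hZ V v1 v2
  choose F' g1 g2 using fun n => v3 n (F n) (f1 n)
  refine ⟨F', g1, fun A hA => ?_⟩
  choose z hz hwz using fun a : A => h2 a.1 (hA a.2)
  obtain ⟨n, hn⟩ := f2 (Finset.univ.image z) (by
    intro y hy
    obtain ⟨a, -, rfl⟩ := Finset.mem_image.1 hy
    exact hz a)
  exact ⟨n, fun a ha => g2 n _ (hz ⟨a, ha⟩)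
    (hn (Finset.mem_image_of_mem _ (Finset.mem_univ _))) (hwz ⟨a, ha⟩)⟩

theorem Scheepers.menger {X : Set α} (h : Scheepers X) : Menger X := by
  intro U hU hc
  obtain ⟨F, f1, f2⟩ := h U hU hc
  refine ⟨F, f1, fun x hx => ?_⟩
  obtain ⟨n, hn⟩ := f2 {x} (by simpa using hx)
  exact mem_iUnion.2 ⟨n, hn (by simp)⟩

theorem usc_image {Z : Set α} {f : α → β} (hf : ContinuousOn f Z) : Usc Z (fun z => {f z}) := by
  refine ⟨fun _ _ => isCompact_singleton, fun z hz O hO h => ?_⟩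
  obtain ⟨V, hV, e⟩ := continuousOn_iff'.1 hf O hO
  have e' : ∀ y ∈ Z, f y ∈ O ↔ y ∈ V := fun y hy =>
    ⟨fun h => ((Set.ext_iff.1 e y).1 ⟨h, hy⟩).1, fun h => ((Set.ext_iff.1 e y).2 ⟨h, hy⟩).1⟩
  exact ⟨V, hV, (e' z hz).1 (h rfl), fun y hy h => singleton_subset_iff.2 ((e' y hy).2 h)⟩

theorem usc_emb {W : Set β} {j : β → α} (hj : IsEmbedding j) : Usc (j '' W) (fun z => j ⁻¹' {z}) := by
  refine ⟨fun z _ => (subsingleton_singleton.preimage hj.injective).finite.isCompact, ?_⟩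
  rintro _ ⟨w, -, rfl⟩ O hO h
  obtain ⟨V, hV, rfl⟩ := hj.isInducing.isOpen_iff.1 hO
  exact ⟨V, hV, h rfl, fun y _ hy x hx => by rw [mem_preimage, show j x = y from hx]; exact hy⟩

theorem usc_closed [CompactSpace β] (Z : Set α) {C : Set (α × β)} (hC : IsClosed C) :
    Usc Z (fun z => {y | (z, y) ∈ C}) := by
  refine ⟨fun z _ => (hC.preimage (Continuous.prodMk_right z)).isCompact, fun z _ O hO h => ?_⟩
  refine ⟨(Prod.fst '' (C ∩ Prod.snd ⁻¹' Oᶜ))ᶜ, (isClosedMap_fst_of_compactSpace _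
    (hC.inter (hO.isClosed_compl.preimage continuous_snd))).isOpen_compl, ?_, fun z' _ hz' y hy => ?_⟩
  · rintro ⟨⟨a, y⟩, ⟨h1, h2⟩, rfl⟩
    exact h2 (h h1)
  · by_contra hn
    exact hz' ⟨(z', y), ⟨hy, hn⟩, rfl⟩

theorem Scheepers.image {Z : Set α} (h : Scheepers Z) {f : α → β} (hf : ContinuousOn f Z) :
    Scheepers (f '' Z) :=
  h.usc (usc_image hf) (fun z hz => singleton_subset_iff.2 ⟨z, hz, rfl⟩)
    (by rintro _ ⟨z, hz, rfl⟩; exact ⟨z, hz, rfl⟩)

theorem Menger.pow_image {Z : Set α} {k : ℕ} (h : Menger (Pow Z k)) {f : α → β}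
    (hf : Continuous f) : Menger (Pow (f '' Z) k) := by
  refine h.usc (usc_image (f := fun x i => f (x i)) (by fun_prop)) (fun z hz => ?_) (fun w hw => ?_)
  · exact singleton_subset_iff.2 fun i _ => ⟨z i, hz i (mem_univ _), rfl⟩
  · choose z hz hz' using fun i => hw i (mem_univ _)
    exact ⟨z, fun i _ => hz i, funext fun i => (hz' i).symm⟩

theorem Menger.pow_emb {W : Set β} {k : ℕ} {j : β → α} (hj : IsEmbedding j)
    (h : Menger (Pow (j '' W) k)) : Menger (Pow W k) := by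
  have hj' : IsEmbedding (Pi.map (fun _ : Fin (k + 1) => j)) := IsEmbedding.piMap fun _ => hj
  have e : Pow (j '' W) k = Pi.map (fun _ : Fin (k + 1) => j) '' Pow W k :=
    (Set.piMap_image_univ_pi _ _).symm
  rw [e] at h
  refine h.usc (usc_emb hj') ?_ (fun w hw => ⟨_, ⟨w, hw, rfl⟩, rfl⟩)
  rintro _ ⟨w, hw, rfl⟩ x hx
  rw [hj'.injective (show _ = _ from hx)]
  exact hw

theorem usc_Iic {Z : Set α} {h : α → ℕ → ℕ} (hh : Continuous h) : Usc Z (fun z => Iic (h z)) := by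
  have hc : ∀ u : ℕ → ℕ, IsCompact (Iic u) := fun u => by
    rw [← Set.pi_univ_Iic]
    exact isCompact_univ_pi fun n => (finite_Iic _).isCompact
  refine ⟨fun z _ => hc _, fun z _ O hO hs => ?_⟩
  have hcyl : ∀ (u : ℕ → ℕ) (N : ℕ), IsOpen {g : ℕ → ℕ | ∀ n < N, g n = u n} := by
    intro u N
    have : {g : ℕ → ℕ | ∀ n < N, g n = u n} =
        ⋂ n ∈ Finset.range N, (fun g : ℕ → ℕ => g n) ⁻¹' {u n} := by ext; simp
    rw [this]
    exact isOpen_biInter_finset fun n _ => (isOpen_discrete _).preimage (continuous_apply n)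
  obtain ⟨N, hN⟩ := (hc (h z)).elim_directed_cover
    (fun N : ℕ => {g : ℕ → ℕ | ∀ g' : ℕ → ℕ, (∀ n < N, g' n = g n) → g' ∈ O}) (fun N => by
      refine isOpen_iff_forall_mem_open.2 fun g hg => ⟨{g1 : ℕ → ℕ | ∀ n < N, g1 n = g n},
        fun g1 h1 g' h' => hg g' fun n hn =>
        (h' n hn).trans (h1 n hn), hcyl g N, fun _ _ => rfl⟩) (by
      intro g hg
      obtain ⟨I, u, h1, h2⟩ := isOpen_pi_iff.1 hO g (hs hg)
      refine mem_iUnion.2 ⟨I.sup id + 1, fun g' hg' => h2 fun i hi => ?_⟩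
      rw [hg' i (Nat.lt_succ_of_le (Finset.le_sup (f := id) hi))]
      exact (h1 i hi).2)
    (Monotone.directed_le fun N M hNM g hg g' hg' => hg g' fun n hn => hg' n (by omega))
  refine ⟨h ⁻¹' {g | ∀ n < N, g n = h z n}, (hcyl _ N).preimage hh, fun _ _ => rfl,
    fun z' _ hz' g hg => ?_⟩
  refine hN (a := fun n => if n < N then g n else 0) (fun n => ?_) g (fun n hn => by simp [hn])
  beta_reduce
  split_ifs with hn
  · rw [← hz' n hn]; exact hg n
  · exact Nat.zero_le _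

theorem scheepers_G {Y : Set (ℕ → ℕ)} (hY : ∀ k, Menger (Pow Y k)) : Scheepers (G Y) := by
  classical
  intro U hU hc
  let h : ∀ k m : ℕ, (Fin (k + 1) → ℕ → ℕ) → ℕ → ℕ := fun k m x n =>
    (if n < m then m else 0) + Finset.univ.sup (fun i => x i n)
  have hh : ∀ k m, Continuous (h k m) := fun k m => continuous_pi fun n =>
    (continuous_of_discreteTopology (f := fun v : Fin (k + 1) → ℕ =>
      (if n < m then m else 0) + Finset.univ.sup v)).comp
      (continuous_pi fun i => (continuous_apply n).comp (continuous_apply i))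
  have hG : ∀ k m, ∀ x ∈ Pow Y k, Iic (h k m x) ⊆ G Y := by
    intro k m x hx g hg
    refine ⟨Finset.univ.image x, Finset.univ_nonempty.image _, fun y hy => ?_, ?_⟩
    · obtain ⟨i, -, rfl⟩ := Finset.mem_image.1 hy
      exact hx i (mem_univ _)
    · filter_upwards [eventually_ge_atTop m] with n hn
      have := hg n
      simp only [h, if_neg (not_lt.2 hn), zero_add] at this
      rw [Finset.sup_image]
      exact this
  choose V v1 v2 v3 using fun k m j => usc (usc_Iic (Z := Pow Y k) (hh k m))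
    (hU (Nat.pair (Nat.pair k m) j)) (fun z hz => (hG k m z hz).trans (hc _))
  choose F f1 f2 using fun k m => hY k (V k m) (v1 k m) (v2 k m)
  choose F' g1 g2 using fun k m j => v3 k m j (F k m j) (f1 k m j)
  refine ⟨fun n => F' n.unpair.1.unpair.1 n.unpair.1.unpair.2 n.unpair.2, fun n => ?_,
    fun A hA => ?_⟩
  · have := g1 n.unpair.1.unpair.1 n.unpair.1.unpair.2 n.unpair.2
    rwa [Nat.pair_unpair, Nat.pair_unpair] at this
  · rcases A.eq_empty_or_nonempty with rfl | ⟨a0, ha0⟩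
    · exact ⟨0, by simp⟩
    choose T t1 t2 t3 using fun a : A => hA a.2
    choose M hM using fun a : A => eventually_atTop.1 (t3 a)
    set S := Finset.univ.biUnion T with hS
    have hS1 : S.Nonempty := by
      obtain ⟨y, hy⟩ := t1 ⟨a0, ha0⟩
      exact ⟨y, Finset.mem_biUnion.2 ⟨_, Finset.mem_univ _, hy⟩⟩
    obtain ⟨k, hk⟩ := Nat.exists_eq_succ_of_ne_zero hS1.card_pos.ne'
    let e := S.equivFinOfCardEq hk
    let x : Fin (k + 1) → ℕ → ℕ := fun i => (e.symm i).1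
    have hx : x ∈ Pow Y k := fun i _ => by
      obtain ⟨a, -, ha⟩ := Finset.mem_biUnion.1 (e.symm i).2
      exact t2 a ha
    set m := Finset.univ.sup (fun a : A => M a + (Finset.range (M a)).sup a.1) with hm
    obtain ⟨j, hj⟩ := mem_iUnion.1 (f2 k m hx)
    refine ⟨Nat.pair (Nat.pair k m) j, fun a ha => ?_⟩
    simp only [Nat.unpair_pair]
    refine g2 k m j x hx hj (fun n => ?_)
    have e1 : M ⟨a, ha⟩ + (Finset.range (M ⟨a, ha⟩)).sup a ≤ m :=
      Finset.le_sup (f := fun a : A => M a + (Finset.range (M a)).sup a.1) (Finset.mem_univ _)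
    by_cases hn : n < M ⟨a, ha⟩
    · have e2 : a n ≤ (Finset.range (M ⟨a, ha⟩)).sup a := Finset.le_sup (Finset.mem_range.2 hn)
      simp only [h, if_pos (show n < m by omega)]
      omega
    · refine (hM ⟨a, ha⟩ n (by omega)).trans (le_trans ?_ (Nat.le_add_left _ _))
      refine Finset.sup_le fun y hy => ?_
      have hy' : y ∈ S := Finset.mem_biUnion.2 ⟨_, Finset.mem_univ _, hy⟩
      have := Finset.le_sup (f := fun i => x i n) (Finset.mem_univ (e ⟨y, hy'⟩))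
      simpa [x] using this

theorem branch : ∃ Ψ : (ℕ → Bool) → ℕ → ℕ, Continuous Ψ ∧ ∀ (X : Set (ℕ → Bool)) (y : ℕ → Bool),
    ∀ g ∈ G (Ψ '' X), Ψ y ≤ g → y ∈ X := by
  classical
  obtain ⟨d, hd⟩ := exists_surjective_nat (Σ n : ℕ, (Fin n → Bool))
  let B : (Σ n : ℕ, (Fin n → Bool)) → (ℕ → Bool) → ℕ := fun s y =>
    if (fun j : Fin s.1 => y j) = s.2 then 1 else 0
  refine ⟨fun y i => B (d i) y,
    continuous_pi fun i => (continuous_of_discreteTopology (f := fun v : Fin (d i).1 → Bool =>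
      if v = (d i).2 then 1 else 0)).comp (continuous_pi fun j => continuous_apply _), ?_⟩
  rintro X y g ⟨F, -, hF, hg⟩ hy
  by_contra hn
  obtain ⟨M, hM⟩ := eventually_atTop.1 hg
  choose x hx hx' using fun h : F => hF h.2
  have hne : ∀ h : F, ∃ n, x h n ≠ y n := fun h =>
    Function.ne_iff.1 fun e => hn (e ▸ hx h)
  choose p hp using hne
  obtain ⟨n, hn⟩ : ∃ n, n = Finset.univ.sup p + (Finset.range M).sup (fun i => (d i).1) + 1 :=
    ⟨_, rfl⟩
  obtain ⟨i, hi⟩ := hd ⟨n, fun j => y j⟩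
  have hiM : M ≤ i := by
    by_contra hc
    have h1 : (d i).1 ≤ (Finset.range M).sup (fun i => (d i).1) :=
      Finset.le_sup (f := fun i => (d i).1) (Finset.mem_range.2 (not_le.1 hc))
    have h2 : (d i).1 = n := by rw [hi]
    omega
  have e1 : B (d i) y ≤ _ := (hy i).trans (hM i hiM)
  have e0 : B (d i) y = 1 := by rw [hi]; simp [B]
  rw [e0] at e1
  obtain ⟨h, hh, e2⟩ := (Finset.le_sup_iff (by norm_num)).1 e1
  have e3 : B (d i) (x ⟨h, hh⟩) = h i := congrFun (hx' ⟨h, hh⟩) i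
  rw [← e3, hi] at e2
  simp only [B] at e2
  split_ifs at e2 with e4
  · have := Finset.le_sup (f := p) (Finset.mem_univ ⟨h, hh⟩)
    exact hp ⟨h, hh⟩ (congrFun e4 ⟨p ⟨h, hh⟩, by omega⟩)
  · omega

theorem cantor_emb : IsEmbedding (fun y => (cantorSetHomeomorphNatToBool.symm y : ℝ)) :=
  IsEmbedding.subtypeVal.comp cantorSetHomeomorphNatToBool.symm.isEmbedding

theorem baire_emb : ∃ j : (ℕ → ℕ) → ℝ, IsEmbedding j := by
  let j : (ℕ → ℕ) → ℕ → Bool := fun y i => decide (y i.unpair.1 = i.unpair.2)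
  have hj : IsEmbedding j := by
    refine ⟨⟨le_antisymm (continuous_iff_le_induced.1 (continuous_pi fun i =>
      (continuous_of_discreteTopology (f := fun v : ℕ => decide (v = i.unpair.2))).comp
        (continuous_apply _))) ?_⟩, fun y y' h => funext fun n => ?_⟩
    · refine le_iInf fun n => continuous_iff_le_induced.1 ?_
      let _ : TopologicalSpace (ℕ → ℕ) := TopologicalSpace.induced j inferInstance
      refine (IsLocallyConstant.iff_isOpen_fiber.2 fun m => ?_).continuous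
      refine ⟨(fun z : ℕ → Bool => z (Nat.pair n m)) ⁻¹' {true},
        (isOpen_discrete _).preimage (continuous_apply _), ?_⟩
      ext y
      simp [j]
    · have := congrFun h (Nat.pair n (y n))
      simp only [j, Nat.unpair_pair, decide_true] at this
      exact (of_decide_eq_true this.symm).symm
  exact ⟨_, cantor_emb.comp hj⟩

theorem pow_cantor (H : ∀ X : Set ℝ, Scheepers X → ∀ f : ℝ → (ℕ → ℕ), ContinuousOn f X →
    Scheepers (G (f '' X))) {X : Set (ℕ → Bool)} (hX : Scheepers X) (k : ℕ) :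
    Menger (Pow X k) := by
  classical
  obtain ⟨Ψ, hΨ, hb⟩ := branch
  let f : ℝ → ℕ → ℕ := fun r =>
    if h : r ∈ cantorSet then Ψ (cantorSetHomeomorphNatToBool ⟨r, h⟩) else 0
  have hf : ContinuousOn f cantorSet := by
    rw [continuousOn_iff_continuous_domRestrict]
    have : cantorSet.domRestrict f = Ψ ∘ cantorSetHomeomorphNatToBool := by
      funext r
      simp [f, r.2]
    rw [this]
    exact hΨ.comp cantorSetHomeomorphNatToBool.continuous
  have h1 := H _ (hX.image cantor_emb.continuous.continuousOn) f (hf.mono (by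
    rintro _ ⟨y, -, rfl⟩
    exact (cantorSetHomeomorphNatToBool.symm y).2))
  have e : f '' ((fun y => (cantorSetHomeomorphNatToBool.symm y : ℝ)) '' X) = Ψ '' X := by
    rw [image_image]
    refine image_congr fun y _ => ?_
    simp [f]
  rw [e] at h1
  refine h1.menger.usc (usc_closed _
    (C := {p : (ℕ → ℕ) × (Fin (k + 1) → ℕ → Bool) | ∀ i, Ψ (p.2 i) ≤ p.1}) ?_)
    (fun g hg y hy i _ => hb X _ g hg (hy i)) (fun x hx => ?_)
  · rw [Set.ofPred_forall]
    exact isClosed_iInter fun i => isClosed_le (hΨ.comp (by fun_prop)) continuous_fst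
  · refine ⟨fun n => Finset.univ.sup (fun i => Ψ (x i) n), ⟨Finset.univ.image (fun i => Ψ (x i)),
      Finset.univ_nonempty.image _, fun y hy => ?_, Eventually.of_forall fun n => ?_⟩,
      fun i n => Finset.le_sup (f := fun i => Ψ (x i) n) (Finset.mem_univ i)⟩
    · obtain ⟨i, -, rfl⟩ := Finset.mem_image.1 hy
      exact ⟨x i, hx i (mem_univ _), rfl⟩
    · rw [Finset.sup_image]
      exact le_rfl

theorem main : (∀ X : Set ℝ, Scheepers X → ∀ f : ℝ → (ℕ → ℕ), ContinuousOn f X →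
    Scheepers (G (f '' X))) ↔ ∀ X : Set ℝ, Scheepers X → ∀ k, Menger (Pow X k) := by
  refine ⟨fun H X hX k => ?_, fun H X hX f hf => ?_⟩
  · obtain ⟨π, hπ, hπ'⟩ := exists_nat_bool_continuous_surjective_of_compact unitInterval
    have h1 := hX.image (Topology.isEmbedding_sigmoid.continuous.continuousOn)
    have h2 : Scheepers (π ⁻¹' (unitInterval.sigmoid '' X)) :=
      h1.usc (usc_closed _ (C := {p : unitInterval × (ℕ → Bool) | π p.2 = p.1})
        (isClosed_eq (hπ.comp continuous_snd) continuous_fst))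
        (fun z hz y hy => by rw [mem_preimage, show π y = z from hy]; exact hz)
        (fun y hy => ⟨π y, hy, rfl⟩)
    have h3 := (pow_cantor H h2 k).pow_image hπ
    rw [image_preimage_eq _ hπ'] at h3
    exact h3.pow_emb Topology.isEmbedding_sigmoid
  · obtain ⟨j, hj⟩ := baire_emb
    exact scheepers_G fun k =>
      (H _ ((hX.image hf).image hj.continuous.continuousOn) k).pow_emb hj

end Pool.Agent.H.MP_10444e_gt
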