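import Mathlib
import Pool.Agent.H.MP_10444e_gt.A

set_option autoImplicit false

namespace Pool.Agent.H.MP_10444e_gt

open Set Filter Topology MeasureTheory Cardinal

abbrev Gp : Type := ℕ → ZMod 2

def Inf : Set Gp := {z | {n | z n ≠ 0}.Infinite}

theorem inf_compl_countable : Infᶜ.Countable := by
  refine MapsTo.countable_of_injOn (f := fun z : Gp => {n | z n ≠ 0})
    (t := {t | Set.Finite t ∧ t ⊆ univ}) (fun z hz => ⟨not_infinite.1 hz, subset_univ _⟩)
    (fun z _ w _ h => funext fun n => ?_) (countable_ofPred_finite_subset countable_univ)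
  have : z n ≠ 0 ↔ w n ≠ 0 := Set.ext_iff.1 h n
  revert this
  generalize z n = a
  generalize w n = b
  revert a b
  decide

theorem not_menger_inf : ¬ Menger Inf := by
  classical
  intro h
  let W : ℕ → ℕ → Set Gp := fun n k =>
    {z | ∃ S : Finset ℕ, S.card = n + 1 ∧ ∀ i ∈ S, i < k ∧ z i ≠ 0}
  obtain ⟨F, f1, f2⟩ := h (fun n => range (W n)) (by
    rintro n _ ⟨k, rfl⟩
    refine isOpen_iff_forall_mem_open.2 ?_
    rintro z ⟨S, h1, h2⟩
    refine ⟨⋂ i ∈ S, (fun w : Gp => w i) ⁻¹' {0}ᶜ, fun w hw => ⟨S, h1, fun i hi =>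
      ⟨(h2 i hi).1, mem_iInter₂.1 hw i hi⟩⟩, isOpen_biInter_finset fun i _ =>
      (isOpen_discrete _).preimage (continuous_apply i), mem_iInter₂.2 fun i hi => (h2 i hi).2⟩) (by
    intro n z hz
    obtain ⟨S, h1, h2⟩ := Set.Infinite.exists_subset_card_eq hz (n + 1)
    exact ⟨_, ⟨S.sup id + 1, rfl⟩, S, h2, fun i hi =>
      ⟨Nat.lt_succ_of_le (Finset.le_sup (f := id) hi), h1 hi⟩⟩)
  have : ∀ n, ∃ k, ⋃₀ (↑(F n) : Set (Set Gp)) ⊆ W n k := by
    intro n
    choose c hc using fun u : F n => f1 n u.2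
    refine ⟨Finset.univ.sup c, ?_⟩
    rintro z ⟨u, hu, hz⟩
    have e := hc ⟨u, hu⟩
    simp only at e
    rw [← e] at hz
    obtain ⟨S, h1, h2⟩ := hz
    exact ⟨S, h1, fun i hi => ⟨(h2 i hi).1.trans_le (Finset.le_sup (Finset.mem_univ _)),
      (h2 i hi).2⟩⟩
  choose k hk using this
  let s : ℕ → ℕ := fun n => ∑ i ∈ Finset.range (n + 1), (k i + 1)
  have hs : StrictMono s := strictMono_nat_of_lt_succ fun n => by
    simp only [s, Finset.sum_range_succ _ (n + 1)]
    omega
  have hs' : ∀ n, k n ≤ s n := fun n => by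
    simp only [s, Finset.sum_range_succ _ n]
    omega
  let z : Gp := fun i => if i ∈ range s then 1 else 0
  have hz : ∀ i, z i ≠ 0 ↔ i ∈ range s := fun i => by
    simp only [z]
    split_ifs with h <;> simp [h]
  have hzI : z ∈ Inf := (infinite_range_of_injective hs.injective).mono fun i hi => (hz i).2 hi
  obtain ⟨n, hn⟩ := mem_iUnion.1 (f2 hzI)
  obtain ⟨S, h1, h2⟩ := hk n hn
  have : S ⊆ (Finset.range n).image s := by
    intro i hi
    obtain ⟨j, rfl⟩ := (hz i).1 (h2 i hi).2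
    exact Finset.mem_image_of_mem _
      (Finset.mem_range.2 (hs.lt_iff_lt.1 ((h2 _ hi).1.trans_le (hs' n))))
  have := (Finset.card_le_card this).trans Finset.card_image_le
  rw [Finset.card_range] at this
  omega

theorem sierpinski_scheepers {α : Type} [TopologicalSpace α] [SecondCountableTopology α]
    [MeasurableSpace α] [BorelSpace α] (μ : Measure α) [IsFiniteMeasure μ] {X : Set α}
    (hne : X.Nonempty) (hX : ∀ N, MeasurableSet N → μ N = 0 → (X ∩ N).Countable) :
    Scheepers X := by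
  classical
  intro U hU hc
  have h1 : ∀ n, ∃ u : ℕ → Set α, (∀ i, u i ∈ U n) ∧ X ⊆ ⋃ i, u i := by
    intro n
    obtain ⟨T, h1, h2, h3⟩ := TopologicalSpace.isOpen_sUnion_countable (U n) (hU n)
    have h4 : X ⊆ ⋃₀ T := h3 ▸ hc n
    obtain ⟨x, hx⟩ := hne
    obtain ⟨t, ht, -⟩ := h4 hx
    obtain ⟨u, rfl⟩ := h1.exists_eq_range ⟨t, ht⟩
    exact ⟨u, fun i => h2 (mem_range_self i), by rwa [sUnion_range] at h4⟩
  choose u hu hXu using h1
  let V : ℕ → ℕ → Set α := fun n k => ⋃ i ∈ Finset.range k, u n i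
  have hV : ∀ n, Monotone (V n) := fun n k m hkm =>
    biUnion_subset_biUnion_left (by intro i hi; simp at hi ⊢; omega)
  have h2 : ∀ n, ∃ k, μ ((⋃ i, u n i) \ V n k) ≤ (1 / 2) ^ n := by
    intro n
    have hm : ∀ i, MeasurableSet (u n i) := fun i => (hU n _ (hu n i)).measurableSet
    have := tendsto_measure_iInter_atTop (μ := μ) (s := fun k => (⋃ i, u n i) \ V n k)
      (fun k => ((MeasurableSet.iUnion hm).diff
        (Finset.measurableSet_biUnion _ fun i _ => hm i)).nullMeasurableSet)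
      (fun k m hkm => sdiff_subset_sdiff_right (hV n hkm)) ⟨0, measure_ne_top _ _⟩
    have e : (⋂ k, (⋃ i, u n i) \ V n k) = ∅ := by
      rw [eq_empty_iff_forall_notMem]
      intro x hx
      obtain ⟨i, hi⟩ := mem_iUnion.1 (mem_iInter.1 hx 0).1
      exact (mem_iInter.1 hx (i + 1)).2 (mem_biUnion (Finset.self_mem_range_succ i) hi)
    rw [e, measure_empty] at this
    have hpos : (0 : ENNReal) < (1 / 2) ^ n := pos_iff_ne_zero.2 (pow_ne_zero _ (by simp))
    exact (this.eventually (ge_mem_nhds hpos)).exists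
  choose k hk using h2
  have h3 : μ {x | ∃ᶠ n in atTop, x ∈ (⋃ i, u n i) \ V n (k n)} = 0 := by
    refine measure_setOfPred_frequently_eq_zero (p := fun n x => x ∈ (⋃ i, u n i) \ V n (k n)) ?_
    refine ne_top_of_le_ne_top ?_ (ENNReal.tsum_le_tsum hk)
    simp [ENNReal.tsum_geometric]
  obtain ⟨N, n1, n2, n3⟩ := exists_measurable_superset_of_null h3
  obtain ⟨x0, hx0⟩ := hne
  obtain ⟨e, he⟩ := ((hX N n2 n3).insert x0).exists_eq_range (insert_nonempty _ _)
  have heX : ∀ i, e i ∈ X := fun i => by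
    have : e i ∈ insert x0 (X ∩ N) := he ▸ mem_range_self i
    rcases this with h | h
    exacts [h ▸ hx0, h.1]
  choose a ha using fun n i => mem_iUnion.1 (hXu n (heX i))
  let k' : ℕ → ℕ := fun n => k n + (Finset.range (n + 1)).sup (a n) + 1
  have h4 : ∀ x ∈ X, ∀ᶠ n in atTop, x ∈ V n (k' n) := by
    intro x hx
    by_cases hxN : x ∈ N
    · have : x ∈ range e := he ▸ mem_insert_of_mem _ ⟨hx, hxN⟩
      obtain ⟨i, rfl⟩ := this
      filter_upwards [eventually_ge_atTop i] with n hn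
      have : a n i ≤ (Finset.range (n + 1)).sup (a n) :=
        Finset.le_sup (f := a n) (Finset.mem_range.2 (Nat.lt_succ_of_le hn))
      exact mem_biUnion (Finset.mem_range.2 (by simp only [k']; omega)) (ha n i)
    · have : ¬ ∃ᶠ n in atTop, x ∈ (⋃ i, u n i) \ V n (k n) := fun h => hxN (n1 h)
      filter_upwards [not_frequently.1 this] with n hn
      refine hV n (by simp only [k']; omega : k n ≤ k' n) ?_
      by_contra h
      exact hn ⟨hXu n hx, h⟩
  refine ⟨fun n => (Finset.range (k' n)).image (u n), fun n v hv => ?_, fun A hA => ?_⟩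
  · obtain ⟨i, -, rfl⟩ := Finset.mem_image.1 hv
    exact hu n i
  · obtain ⟨n, hn⟩ := ((eventually_all_finset A).2 fun x hx => h4 x (hA hx)).exists
    refine ⟨n, fun x hx => ?_⟩
    obtain ⟨i, hi, h⟩ := mem_iUnion₂.1 (hn x hx)
    exact ⟨u n i, Finset.mem_image_of_mem _ hi, h⟩

theorem ch_example (ch : (𝔠 : Cardinal.{0}) = ℵ₁) : ∃ X : Set Gp, Scheepers X ∧ ¬ Menger (Pow X 1) := by
  classical
  let _ : MeasurableSpace Gp := borel Gp
  have _ : BorelSpace Gp := ⟨rfl⟩
  let μ : Measure Gp := Measure.addHaar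
  have _ : NullSingletonClass μ := ⟨fun x => by
    by_contra h
    exact measure_ne_top μ univ (infinite_univ.meas_eq_top ⟨_, h, fun y _ => by
      rw [Measure.addHaar_singleton μ x, Measure.addHaar_singleton μ y]⟩)⟩
  let T := Gp × {N : Set Gp // MeasurableSet N ∧ μ N = 0}
  have hT : #T ≤ ℵ₁ := by
    have h1 : #Gp ≤ 𝔠 := by simp [Gp]
    have h2 : #{N : Set Gp // MeasurableSet N ∧ μ N = 0} ≤ 𝔠 := by
      have := MeasurableSpace.cardinal_measurableSet_le_continuum
        (s := MeasurableSpace.countableGeneratingSet Gp)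
        ((le_aleph0_iff_set_countable.2 MeasurableSpace.countable_countableGeneratingSet).trans
          aleph0_le_continuum)
      rw [MeasurableSpace.generateFrom_countableGeneratingSet] at this
      exact (Cardinal.mk_le_mk_of_subset (s := {N : Set Gp | MeasurableSet N ∧ μ N = 0})
        fun N hN => hN.1).trans this
    rw [← ch, Cardinal.mk_prod, Cardinal.lift_id, Cardinal.lift_id]
    exact (mul_le_mul' h1 h2).trans Cardinal.continuum_mul_self.le
  obtain ⟨r, wo, hr⟩ := Cardinal.exists_ord_eq T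
  have hseg : ∀ t, {s | r s t}.Countable := fun t => by
    rw [← Cardinal.le_aleph0_iff_set_countable, ← Cardinal.lt_aleph_one_iff]
    exact (Cardinal.card_typein_lt t hr).trans_le hT
  have two : ∀ a : Gp, a + a = 0 := fun a => funext fun n => by
    show a n + a n = 0
    generalize a n = b
    revert b
    decide
  have step : ∀ (t : T) (S : Set Gp), ∃ p : Gp × Gp, S.Countable →
      (∀ w ∈ ({p.1, p.2} : Set Gp), (∀ s, (r s t ∨ s = t) → w ∉ s.2.1) ∧
        ∀ v ∈ S, w + v + 1 ∈ Inf) ∧ p.1 + p.2 + 1 ∈ Inf ∧ (t.1 ∈ Inf → p.1 + p.2 + 1 = t.1) := by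
    intro t S
    by_cases hS : S.Countable
    swap
    · exact ⟨(0, 0), fun h => absurd h hS⟩
    let B : Set Gp := (⋃ s ∈ insert t {s | r s t}, s.2.1) ∪ ⋃ v ∈ S, (fun w => w + v + 1) ⁻¹' Infᶜ
    have hB : μ B = 0 := by
      refine measure_union_null ((measure_biUnion_null_iff ((hseg t).insert t)).2
        fun s _ => s.2.2.2) (Set.Countable.measure_zero (hS.biUnion fun v _ => ?_) μ)
      exact inf_compl_countable.preimage fun a b h => by simpa using h
    let z : Gp := if t.1 ∈ Inf then t.1 else 1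
    have hz : z ∈ Inf := by
      simp only [z]
      split_ifs with h
      · exact h
      · exact infinite_univ.mono fun n _ => (one_ne_zero : (1 : ZMod 2) ≠ 0)
    have hB' : μ ((fun w => w + (z + 1)) ⁻¹' B) = 0 := by rw [measure_preimage_add_right, hB]
    have : ∃ x, x ∉ B ∪ (fun w => w + (z + 1)) ⁻¹' B := by
      by_contra hc
      push Not at hc
      have := measure_union_null hB hB'
      rw [eq_univ_of_forall hc] at this
      exact (isOpen_univ.measure_pos μ univ_nonempty).ne' this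
    obtain ⟨x, hx⟩ := this
    have hgood : ∀ w ∉ B, (∀ s, (r s t ∨ s = t) → w ∉ s.2.1) ∧ ∀ v ∈ S, w + v + 1 ∈ Inf := by
      intro w hw
      refine ⟨fun s hs h => hw (Or.inl (mem_biUnion (hs.symm) h)), fun v hv => ?_⟩
      by_contra h
      exact hw (Or.inr (mem_biUnion hv h))
    have e : x + (x + (z + 1)) + 1 = z := by
      have e1 := two x
      have e2 := two 1
      linear_combination e1 + e2
    refine ⟨(x, x + (z + 1)), fun _ => ⟨?_, by rw [e]; exact hz, fun h => by rw [e]; simp [z, h]⟩⟩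
    rintro w (rfl | rfl)
    · exact hgood _ fun h => hx (Or.inl h)
    · exact hgood _ fun h => hx (Or.inr h)
  choose st hst using step
  let p : T → Gp × Gp := wo.wf.fix fun t prev =>
    st t (⋃ s : {s // r s t}, {(prev s.1 s.2).1, (prev s.1 s.2).2})
  have hp : ∀ t, p t = st t (⋃ s : {s // r s t}, {(p s.1).1, (p s.1).2}) := fun t =>
    wo.wf.fix_eq _ t
  have hp' : ∀ t, (∀ w ∈ ({(p t).1, (p t).2} : Set Gp), (∀ s, (r s t ∨ s = t) → w ∉ s.2.1) ∧
        ∀ v ∈ (⋃ s : {s // r s t}, {(p s.1).1, (p s.1).2} : Set Gp), w + v + 1 ∈ Inf) ∧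
        (p t).1 + (p t).2 + 1 ∈ Inf ∧ (t.1 ∈ Inf → (p t).1 + (p t).2 + 1 = t.1) := by
    intro t
    have : Countable {s // r s t} := (hseg t).to_subtype
    rw [hp t]
    exact hst t _ (countable_iUnion fun s => (toFinite _).countable)
  let t0 : T := (0, ⟨∅, MeasurableSet.empty, measure_empty⟩)
  refine ⟨⋃ t, {(p t).1, (p t).2}, sierpinski_scheepers μ ⟨(p t0).1, mem_iUnion.2 ⟨t0, Or.inl rfl⟩⟩
    fun N h1 h2 => ?_, fun hM => not_menger_inf ?_⟩
  · refine ((hseg (0, ⟨N, h1, h2⟩)).biUnion (t := fun t _ => ({(p t).1, (p t).2} : Set Gp))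
      fun s _ => (toFinite _).countable).mono ?_
    rintro w ⟨hw, hwN⟩
    obtain ⟨t, ht⟩ := mem_iUnion.1 hw
    refine mem_biUnion (show r t _ from ?_) ht
    rcases trichotomous_of r t (0, ⟨N, h1, h2⟩) with h | h | h
    · exact h
    · exact absurd hwN (((hp' t).1 w ht).1 _ (Or.inr h.symm))
    · exact absurd hwN (((hp' t).1 w ht).1 _ (Or.inl h))
  · refine hM.usc (usc_image (f := fun x : Fin 2 → Gp => x 0 + x 1 + 1) (by fun_prop))
      (fun x hx => singleton_subset_iff.2 ?_) (fun z hz => ?_)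
    · obtain ⟨s, hs⟩ := mem_iUnion.1 (hx 0 (mem_univ _))
      obtain ⟨t, ht⟩ := mem_iUnion.1 (hx 1 (mem_univ _))
      have one : (1 : Gp) ∈ Inf := infinite_univ.mono fun n _ => (one_ne_zero : (1 : ZMod 2) ≠ 0)
      rcases trichotomous_of r s t with h | h | h
      · rw [add_comm (x 0)]
        exact ((hp' t).1 _ ht).2 _ (mem_iUnion.2 ⟨⟨s, h⟩, hs⟩)
      · subst h
        rcases hs with hs | hs <;> rcases ht with ht | ht <;> rw [hs, ht]
        · rw [two, zero_add]; exact one
        · exact (hp' s).2.1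
        · rw [add_comm (p s).2]; exact (hp' s).2.1
        · rw [two, zero_add]; exact one
      · exact ((hp' s).1 _ hs).2 _ (mem_iUnion.2 ⟨⟨t, h⟩, ht⟩)
    · let t : T := (z, ⟨∅, MeasurableSet.empty, measure_empty⟩)
      refine ⟨![(p t).1, (p t).2], fun i _ => mem_iUnion.2 ⟨t, ?_⟩, ((hp' t).2.2 hz).symm⟩
      fin_cases i
      · exact Or.inl rfl
      · exact Or.inr rfl

theorem ch_real (ch : (𝔠 : Cardinal.{0}) = ℵ₁) : ¬ ∀ X : Set ℝ, Scheepers X → ∀ k, Menger (Pow X k) := by
  intro H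
  obtain ⟨X, h1, h2⟩ := ch_example ch
  obtain ⟨j, hj⟩ := baire_emb
  have hv : IsEmbedding (fun (z : Gp) (n : ℕ) => (z n).val) :=
    (Continuous.isClosedEmbedding (continuous_pi fun n =>
      (continuous_of_discreteTopology (f := ZMod.val)).comp (continuous_apply n))
      fun a b h => funext fun n => ZMod.val_injective 2 (congrFun h n)).isEmbedding
  exact h2 ((H _ (h1.image (hj.comp hv).continuous.continuousOn) 1).pow_emb (hj.comp hv))

end Pool.Agent.H.MP_10444e_gt
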